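import Mathlib

set_option autoImplicit false

open Set Topology Cardinal TopologicalSpace

namespace Pool.Agent.Results.MP_3f847c_gt.BigWeight

/-- Scatteredly continuous real functions. -/
def SC {X : Type} [TopologicalSpace X] (f : X → ℝ) : Prop :=
  ∀ A : Set X, A.Nonempty → ∃ a : A, ContinuousAt (A.restrict f) a

/-- Weight (at least `ℵ₀`). -/
noncomputable def weight (Z : Type) [TopologicalSpace Z] : Cardinal.{0} :=
  max ℵ₀ (sInf {c | ∃ B : Set (Set Z), IsTopologicalBasis B ∧ #B = c})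

/-- Network weight (at least `ℵ₀`). -/
noncomputable def nw (Z : Type) [TopologicalSpace Z] : Cardinal.{0} :=
  max ℵ₀ (sInf {c | ∃ N : Set (Set Z),
    (∀ z U, IsOpen U → z ∈ U → ∃ n ∈ N, z ∈ n ∧ n ⊆ U) ∧ #N = c})

/-- `2^ℝ`, to be given the `G_δ`-modification of the product topology. -/
def P : Type := ℝ → Bool

def box (I : Set ℝ) (x : P) : Set P := {y | ∀ i ∈ I, y i = x i}

instance : TopologicalSpace P where
  IsOpen U := ∀ x ∈ U, ∃ I : Set ℝ, I.Countable ∧ box I x ⊆ U
  isOpen_univ := fun _ _ => ⟨∅, countable_empty, subset_univ _⟩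
  isOpen_inter := by
    intro U V hU hV x hx
    obtain ⟨I, hI, h1⟩ := hU x hx.1
    obtain ⟨J, hJ, h2⟩ := hV x hx.2
    exact ⟨I ∪ J, hI.union hJ, fun y hy =>
      ⟨h1 fun i hi => hy i (Or.inl hi), h2 fun i hi => hy i (Or.inr hi)⟩⟩
  isOpen_sUnion := by
    rintro S hS x ⟨U, hU, hx⟩
    obtain ⟨I, hI, h⟩ := hS U hU x hx
    exact ⟨I, hI, h.trans (subset_sUnion_of_mem hU)⟩

lemma box_clopen {I : Set ℝ} (hI : I.Countable) (x : P) : IsClopen (box I x) :=
  ⟨⟨fun y hy => ⟨I, hI, fun z hz hz' => hy fun i hi => (hz i hi).symm.trans (hz' i hi)⟩⟩,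
    fun y hy => ⟨I, hI, fun z hz i hi => (hz i hi).trans (hy i hi)⟩⟩

lemma countable_closed {C : Set P} (hC : C.Countable) : IsClosed C := by
  refine ⟨fun x hx => ?_⟩
  have : ∀ c : C, ∃ i, (c : P) i ≠ x i := fun c => by
    by_contra h
    push Not at h
    exact hx ((funext h : (c : P) = x) ▸ c.2)
  choose e he using this
  haveI := hC.to_subtype
  exact ⟨range e, countable_range e, fun y hy hyC => he ⟨y, hyC⟩ (hy _ ⟨_, rfl⟩)⟩

instance : T35Space P := by
  haveI : T1Space P := ⟨fun x => countable_closed (countable_singleton x)⟩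
  haveI : CompletelyRegularSpace P := by
    refine CompletelyRegularSpace.of_isTopologicalBasis_clopens
      (isTopologicalBasis_of_isOpen_of_nhds (fun U hU => hU.isOpen) fun x U hx hU => ?_)
    obtain ⟨I, hI, h⟩ := hU x hx
    exact ⟨box I x, box_clopen hI x, fun _ _ => rfl, h⟩
  exact {}

lemma sc_of_countable {f : P → ℝ} (hf : (Function.support f).Countable) : SC f := by
  intro A ⟨a, ha⟩
  by_cases h : A ⊆ Function.support f
  · refine ⟨⟨a, ha⟩, ?_⟩
    have h1 : (A \ {a})ᶜ ∈ 𝓝 a :=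
      (countable_closed ((hf.mono h).mono diff_subset)).isOpen_compl.mem_nhds (by simp)
    refine (continuousAt_const (y := f a)).congr ?_
    filter_upwards [continuous_subtype_val.continuousAt.preimage_mem_nhds (x := (⟨a, ha⟩ : A)) h1]
      with z hz
    have : (z : P) = a := by_contra fun hne => hz ⟨z.2, hne⟩
    exact congrArg f this.symm
  · obtain ⟨b, hb, hb'⟩ := not_subset.1 h
    refine ⟨⟨b, hb⟩, (continuousAt_const (y := 0)).congr ?_⟩
    filter_upwards [continuous_subtype_val.continuousAt.preimage_mem_nhds (x := (⟨b, hb⟩ : A))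
      ((countable_closed hf).isOpen_compl.mem_nhds hb')] with z hz
    exact (not_not.1 hz).symm

/-- The unit ball of `ℓ₁(P)`. -/
def K : Set (P → ℝ) := {f | ∀ F : Finset P, ∑ x ∈ F, |f x| ≤ 1}

lemma nw_le : nw P ≤ 𝔠 := by
  refine max_le aleph0_le_continuum (le_trans (b := #(range fun es : (ℕ → ℝ) × (ℕ → Bool) =>
    {y : P | ∀ n, y (es.1 n) = es.2 n})) (csInf_le' ⟨_, fun z U hU hz => ?_, rfl⟩)
    (mk_range_le.trans ?_))
  · obtain ⟨I, hI, h⟩ := hU z hz
    obtain ⟨e, he⟩ := (hI.insert 0).exists_eq_range (insert_nonempty _ _)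
    refine ⟨_, ⟨(e, fun n => z (e n)), rfl⟩, fun _ => rfl, fun y hy => h fun i hi => ?_⟩
    obtain ⟨n, rfl⟩ : i ∈ range e := he ▸ Or.inr hi
    exact hy n
  · simp [mk_real]

lemma lt_weight : 𝔠 < weight K := by
  classical
  obtain ⟨B, hB, hc⟩ := csInf_mem (s := {c | ∃ B : Set (Set K), IsTopologicalBasis B ∧ #B = c})
    ⟨_, _, isTopologicalBasis_opens, rfl⟩
  refine lt_max_of_lt_right (hc ▸ ?_)
  have hδ : ∀ x : P, (Pi.single x (1 : ℝ) : P → ℝ) ∈ K := fun x F => by
    have : ∀ y, |(Pi.single x (1 : ℝ) : P → ℝ) y| = if y = x then 1 else 0 := fun y => by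
      by_cases h : y = x <;> simp [h]
    simp only [this, Finset.sum_ite_eq']
    split_ifs <;> norm_num
  have : ∀ x : P, ∃ b ∈ B, (⟨_, hδ x⟩ : K) ∈ b ∧ b ⊆ {f : K | 0 < f.1 x} := fun x =>
    hB.exists_subset_of_mem_open (by simp)
      (isOpen_lt continuous_const ((continuous_apply x).comp continuous_subtype_val))
  choose b hbB hb1 hb2 using this
  have hinj : Function.Injective fun x => (⟨b x, hbB x⟩ : B) := fun x y h => by
    have h1 : b x = b y := congrArg Subtype.val h
    have h2 := hb2 y (h1 ▸ hb1 x)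
    by_contra hne
    simp [Ne.symm hne] at h2
  refine lt_of_lt_of_le ?_ (mk_le_of_injective hinj)
  have : #P = 2 ^ 𝔠 := by simp [P, mk_real]
  rw [this]; exact cantor _

theorem result : ∃ (X : Type) (_ : TopologicalSpace X) (_ : T35Space X) (L : Set (X → ℝ)),
    (∀ f ∈ L, SC f) ∧ IsCompact L ∧ Convex ℝ L ∧ nw X < weight L := by
  refine ⟨P, inferInstance, inferInstance, K, fun f hf => sc_of_countable ?_, ?_, ?_,
    nw_le.trans_lt lt_weight⟩
  · have := (summable_of_sum_le (fun x => abs_nonneg (f x)) hf).countable_support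
    exact this.mono fun x hx => abs_ne_zero.2 hx
  · refine (isCompact_univ_pi fun _ : P => isCompact_Icc (a := (-1 : ℝ)) (b := 1)).of_isClosed_subset
      ?_ fun f hf x _ => ?_
    · have : K = ⋂ F : Finset P, {f : P → ℝ | ∑ x ∈ F, |f x| ≤ 1} := by ext f; simp [K]
      rw [this]
      exact isClosed_iInter fun F => isClosed_le (by fun_prop) continuous_const
    · simpa [abs_le] using hf {x}
  · intro f hf g hg a b ha hb hab F
    calc ∑ x ∈ F, |(a • f + b • g) x| ≤ ∑ x ∈ F, (a * |f x| + b * |g x|) :=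
          Finset.sum_le_sum fun x _ => (abs_add_le _ _).trans (by
            simp [abs_mul, abs_of_nonneg ha, abs_of_nonneg hb])
      _ = a * ∑ x ∈ F, |f x| + b * ∑ x ∈ F, |g x| := by
          rw [Finset.sum_add_distrib, Finset.mul_sum, Finset.mul_sum]
      _ ≤ 1 := by nlinarith [hf F, hg F]

end Pool.Agent.Results.MP_3f847c_gt.BigWeight
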